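import Pool.Agent.U594.AD.Main

set_option autoImplicit false

/-!
# A disconnected augmented deformation space

For `f(z) = z ^ 3`, `ι = id` and `A = B = {0, 1, -1, ∞}` the augmented deformation space is not
connected, although the deformation space itself (the part in Teichmueller space) is not empty.
-/

open Set Topology Filter

namespace Pool.Agent.Results.MP_21db80_an.DisconnectedAugmented

open Pool.Agent.U594.AD

/-- The pair `(f, id)` with `f(z) = z ^ 3` and `A = B = P = {0, 1, -1, ∞}`: `P` has four points, `f`
maps `P` to `P`, `f` is holomorphic and every point outside of `P` has exactly three preimages (so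
`f` is a branched covering of degree `3` with branch values in `P`); the augmented deformation space
contains the class of a marking of a smooth curve (so the deformation space is not empty) and it is
not connected. -/
theorem result :
    P.encard = 4 ∧ MapsTo cube P P ∧ Holomorphic cube ∧ (∀ y ∉ P, (cube ⁻¹' {y}).encard = 3) ∧
      (∃ m : Marked P, (∀ x, ¬ m.C.IsNode x) ∧
        (Quot.mk Equivalent m : AT P) ∈ AugmentedDeformationSpace cube P P) ∧
      ¬ IsPreconnected (AugmentedDeformationSpace cube P P) := by
  refine ⟨?_, ?_, holomorphic_cube, ?_, ⟨M1, C1_node, M1_mem⟩, not_preconnected⟩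
  · unfold P
    have h1 : ((1 : ℂ) : Sph) ≠ ((-1 : ℂ) : Sph) := by
      rw [Ne, OnePoint.coe_eq_coe]
      norm_num
    rw [encard_insert_of_notMem, encard_insert_of_notMem, encard_pair]
    · norm_num
    · exact OnePoint.coe_ne_infty _
    · rintro (h | h)
      · exact h1 h
      · exact OnePoint.coe_ne_infty _ h
    · rintro (h | h | h)
      · exact coe_zero_ne_one h
      · exact coe_zero_ne_neg_one h
      · exact OnePoint.coe_ne_infty _ h
  · intro x hx
    rw [cube_fix hx]
    exact hx
  · intro y hy
    apply encard_cube
    · rintro rfl
      exact hy zero_mem_P
    · rintro rfl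
      exact hy infty_mem_P

end Pool.Agent.Results.MP_21db80_an.DisconnectedAugmented
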